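import Mathlib
import Pool.Agent.H23.PC.Core

/-!
# The variance of primes in short intervals over `F_q[T]`, `q` fixed, on average over residue classes

Keating and Rudnick proved the function field analogue of the conjecture of Goldston and Montgomery in the limit
`q → ∞`. Here `q` is fixed and only the degree tends to infinity. The primes are counted in the intervals of length
`H = q ^ h` and in one residue class modulo `R`, `|R| = q ^ r`; the mean square is over all the intervals, all the
residue classes and all the monic `R` of degree `r` (for `r = 0` this is the mean square of the problem). The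
asymptotic formula, with the factor `log (X / H)` of the conjecture in place of `log X`, holds for all intervals as
soon as `|R| ^ 2 > n ^ (1 + ε) * H`; `R` may be as small as the square root of the length of the interval.

The proof: the diagonal is evaluated by the prime number theorem; in the rest the divisors `R` of the differences of
two primes are switched with the complementary divisors, for which the pairs of primes are counted by Weil's bound for
all Hayes characters (`Pool.Agent.Q284.WE` of the starting library).
-/

set_option autoImplicit false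

namespace Pool.Agent.Results.MP_2a816b_nt.FixedFieldModuli

open Polynomial

variable {F : Type} [Field F] [Fintype F]

open Classical in
/-- the von Mangoldt function of `F[X]`: it is `deg P` at the powers `P ^ k`, `k ≥ 1`, of the monic irreducible
polynomials `P`, and `0` elsewhere -/
noncomputable def Lam (f : F[X]) : ℝ :=
  if h : ∃ P : F[X], P.Monic ∧ Irreducible P ∧ ∃ k : ℕ, 1 ≤ k ∧ f = P ^ k then
    (h.choose.natDegree : ℝ) else 0

/-- Euler's function: the number of the reduced residue classes modulo `R` -/
noncomputable def euler (R : F[X]) : ℕ := {b : F[X] | b.degree < R.degree ∧ IsCoprime b R}.ncard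

/-- the sum of the von Mangoldt function over the `f` in the interval `deg (f - A) < h` around `A` which are
congruent to `A` modulo `R` -/
noncomputable def psi (h : ℕ) (R A : F[X]) : ℝ :=
  ∑ᶠ f ∈ {f : F[X] | (f - A).degree < (h : WithBot ℕ) ∧ R ∣ f - A}, Lam f

open Classical in
/-- the expected value of `psi h R A` -/
noncomputable def expected (h : ℕ) (R A : F[X]) : ℝ :=
  if IsCoprime A R then (Fintype.card F : ℝ) ^ h / euler R else 0

variable (F) in
/-- the mean square of `psi h R A - expected h R A` over the monic `A` of degree `n` and the monic `R` of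
degree `r` -/
noncomputable def meanSquare (n h r : ℕ) : ℝ :=
  (∑ᶠ R ∈ {R : F[X] | R.Monic ∧ R.natDegree = r}, ∑ᶠ A ∈ {A : F[X] | A.Monic ∧ A.natDegree = n},
    (psi h R A - expected h R A) ^ 2) / (Fintype.card F : ℝ) ^ (n + r)

open Pool.Agent.H23.FF Pool.Agent.H23.PC
open Pool.Agent.H341R2.Sharp (Mon mem_Mon)

theorem euler_eq {R : F[X]} (hR : R.Monic) : euler R = phi R := by
  classical
  unfold euler phi
  rw [← Set.ncard_coe_finset]
  congr 1
  ext b
  rw [Finset.mem_coe, Finset.mem_filter, mem_Lo, Set.mem_ofPred_eq, degree_eq_natDegree hR.ne_zero]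

theorem psi_eq {h r m : ℕ} {R : F[X]} (hR : R.Monic) (hr : R.natDegree = r) (hm : h = r + m)
    (A : F[X]) : psi h R A = ∑ u ∈ Lo F m, vM (A + R * u) := by
  classical
  have h1 : {f : F[X] | (f - A).degree < (h : WithBot ℕ) ∧ R ∣ f - A} =
      (((Lo F m).image fun u => A + R * u : Finset F[X]) : Set F[X]) := by
    ext f
    rw [Set.mem_ofPred_eq, Finset.mem_coe, Finset.mem_image]
    constructor
    · rintro ⟨h2, u, hu⟩
      refine ⟨u, ?_, by rw [← hu]; ring⟩
      rw [mem_Lo]
      rcases eq_or_ne u 0 with rfl | h0
      · rw [degree_zero]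
        exact WithBot.bot_lt_coe _
      · rw [hu, degree_mul, degree_eq_natDegree hR.ne_zero, degree_eq_natDegree h0, hr, hm] at h2
        rw [degree_eq_natDegree h0]
        have h3 : r + u.natDegree < r + m := by exact_mod_cast h2
        exact_mod_cast (by omega : u.natDegree < m)
    · rintro ⟨u, hu, rfl⟩
      rw [mem_Lo] at hu
      have e : A + R * u - A = R * u := by ring
      rw [e]
      refine ⟨?_, dvd_mul_right R u⟩
      rcases eq_or_ne u 0 with rfl | h0
      · rw [mul_zero, degree_zero]
        exact WithBot.bot_lt_coe _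
      · rw [degree_mul, degree_eq_natDegree hR.ne_zero, degree_eq_natDegree h0, hr, hm]
        rw [degree_eq_natDegree h0] at hu
        have h3 : u.natDegree < m := by exact_mod_cast hu
        exact_mod_cast (by omega : r + u.natDegree < r + m)
  unfold psi
  rw [h1, finsum_mem_coe_finset, Finset.sum_image]
  · rfl
  · intro u _ v _ e
    exact inj_mul hR e

theorem meanSquare_eq {n h r m : ℕ} (hm : h = r + m) :
    meanSquare F n h r = (∑ R ∈ Mon F r, Pool.Agent.H23.PC.VV n m R) / q F ^ (n + r) := by
  classical
  have h1 : ∀ k : ℕ, {R : F[X] | R.Monic ∧ R.natDegree = k} = (Mon F k : Set F[X]) := by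
    intro k
    ext R
    rw [Set.mem_ofPred_eq, Finset.mem_coe, mem_Mon]
  unfold meanSquare
  rw [h1, h1, finsum_mem_coe_finset]
  congr 1
  apply Finset.sum_congr rfl
  intro R hR
  rw [mem_Mon] at hR
  rw [finsum_mem_coe_finset]
  unfold Pool.Agent.H23.PC.VV
  apply Finset.sum_congr rfl
  intro A _
  rw [psi_eq hR.1 hR.2 hm]
  unfold expected
  rw [euler_eq hR.1, hR.2, ← hm]
  rfl

/-- **The variance of primes in short intervals over `F_q[T]`, on average over residue classes.**

There is an absolute constant `C` such that for every finite field `F` with `q` elements and all `r ≤ h ≤ n`,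
`n ≥ 1`, the mean square over the intervals of length `H = q ^ h` around the monic polynomials of degree `n`, over the
residue classes and over the monic moduli `R` of degree `r` is
`(H / |R|) * (n - h + r + O(1 + n ^ 2 * H / |R| ^ 2))`. -/
theorem result : ∃ C : ℝ, ∀ (F : Type) [Field F] [Fintype F] (n h r : ℕ), 1 ≤ n → r ≤ h → h ≤ n →
    |meanSquare F n h r - (Fintype.card F : ℝ) ^ h / (Fintype.card F : ℝ) ^ r * (n - h + r)| ≤
      C * ((Fintype.card F : ℝ) ^ h / (Fintype.card F : ℝ) ^ r) *
        (1 + (n : ℝ) ^ 2 * (Fintype.card F : ℝ) ^ h / (Fintype.card F : ℝ) ^ (2 * r)) := by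
  refine ⟨9 + 7 * C0, ?_⟩
  intro F _ _ n h r hn hrh hhn
  obtain ⟨m, hm⟩ : ∃ m, h = r + m := ⟨h - r, by omega⟩
  have hq := q_pos F
  have h1 := core' F (n := n) (r := r) (m := m) hn (by omega)
  rw [meanSquare_eq hm]
  change |_ - q F ^ h / q F ^ r * (n - h + r)| ≤ (9 + 7 * C0) * (q F ^ h / q F ^ r) *
    (1 + (n : ℝ) ^ 2 * q F ^ h / q F ^ (2 * r))
  have e1 : q F ^ h / q F ^ r = q F ^ m := by
    rw [hm, pow_add]
    field_simp
  have e2 : (n : ℝ) ^ 2 * q F ^ h / q F ^ (2 * r) = (n : ℝ) ^ 2 * q F ^ m / q F ^ r := by
    rw [hm, pow_add, two_mul, pow_add]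
    field_simp
  have e3 : (n : ℝ) - h + r = n - m := by
    rw [hm]
    push_cast
    ring
  rw [e1, e2, e3]
  have hp : 0 < q F ^ m := by positivity
  have hp' : 0 < q F ^ (n + r) := by positivity
  have e4 : (∑ R ∈ Mon F r, Pool.Agent.H23.PC.VV n m R) / q F ^ (n + r) - q F ^ m * (n - m) =
      (∑ R ∈ Mon F r, Pool.Agent.H23.PC.VV n m R / q F ^ m - q F ^ (n + r) * (n - m)) * (q F ^ m / q F ^ (n + r)) := by
    rw [← Finset.sum_div]
    field_simp
  have hC := C0_pos
  rw [e4, abs_mul, abs_of_pos (by positivity : 0 < q F ^ m / q F ^ (n + r))]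
  calc |∑ R ∈ Mon F r, Pool.Agent.H23.PC.VV n m R / q F ^ m - q F ^ (n + r) * (n - m)| * (q F ^ m / q F ^ (n + r))
      ≤ ((9 + 7 * C0) * q F ^ (n + r) + 8 * (n : ℝ) ^ 2 * q F ^ (n + m)) *
        (q F ^ m / q F ^ (n + r)) := mul_le_mul_of_nonneg_right h1 (by positivity)
    _ ≤ ((9 + 7 * C0) * q F ^ (n + r) + (9 + 7 * C0) * ((n : ℝ) ^ 2 * q F ^ (n + m))) *
        (q F ^ m / q F ^ (n + r)) := by
        apply mul_le_mul_of_nonneg_right _ (by positivity)
        have : 0 ≤ (n : ℝ) ^ 2 * q F ^ (n + m) := by positivity
        nlinarith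
    _ = _ := by
        rw [pow_add, pow_add]
        field_simp

end Pool.Agent.Results.MP_2a816b_nt.FixedFieldModuli
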