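import Pool.Agent.H7.PS.Sup2

/-!
# The two halves of the asymptotic formula for the variance of primes in short intervals

Let `V(X; H) = (1/X) ∫_X^{2X} |ψ(x; H) - H|² dx`, the dyadic form of the mean square of the problem
(free of the trivial contribution of the `x < H/2`, which for `H > X^(1/2)` exceeds the main term).
The conjecture is `V(X; H) ~ H log(X/H)` for `X^ε < H < X^(1-ε)`.

* The ratio cannot be too small everywhere (no hypothesis): for each `δ > 0` there is `ε > 0` such
  that `V(X; H) > (1 - δ) H log(X/H)` for arbitrarily large `X` and some `X^ε ≤ H ≤ X^(1-ε)`.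
* Rigidity.  If the upper half `V(X; H) ≤ (1 + ε) H log(X/H)` of the formula holds, and if
  `V(X; H) = O(H log X)` for the shorter intervals `1 ≤ H ≤ X^δ`, then
  - the Riemann hypothesis holds,
  - Montgomery's pair correlation conjecture holds,
  - the lower half of the formula holds for almost all scales: for `1 < a ≤ b`, on the line
    `X / H = T`, the mean of `|V(X; H) / (H log(X/H)) - 1|` over `T^a ≤ X ≤ T^b` with respect to
    `dX / X` tends to `0` as `T → ∞`.

The proof is described in `MP_103a5c_nt/PrimeVarianceUpper`; the last part compares the lower bound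
for the mixture given by pair correlation with the upper half.
-/

open Filter Topology

namespace Pool.Agent.Results.MP_2a816b_nt.UpperHalf

/-- `ψ(x; H)`: the weighted number of prime powers in the interval of length `H` centred at `x` -/
noncomputable def psi (x H : ℝ) : ℝ :=
  ∑ᶠ n ∈ {n : ℕ | 1 ≤ n ∧ x - H / 2 ≤ n ∧ (n : ℝ) ≤ x + H / 2}, ArithmeticFunction.vonMangoldt n

/-- the mean square of the error over `[X, 2X]` -/
noncomputable def V (X H : ℝ) : ℝ := (1 / X) * ∫ x in X..2 * X, |psi x H - H| ^ 2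

/-- the upper half of the asymptotic formula, uniformly for `X^ε ≤ H ≤ X^(1-ε)` -/
def Upper : Prop := ∀ ε : ℝ, 0 < ε → ∀ᶠ X : ℝ in atTop, ∀ H : ℝ, X ^ ε ≤ H → H ≤ X ^ (1 - ε) →
  V X H ≤ (1 + ε) * (H * Real.log (X / H))

/-- the order of magnitude for the shorter intervals -/
def ShortBound : Prop := ∃ δ C : ℝ, 0 < δ ∧ ∀ᶠ X : ℝ in atTop, ∀ H : ℝ, 1 ≤ H → H ≤ X ^ δ →
  V X H ≤ C * (H * Real.log X)

/-- the asymptotic formula holds in mean on the lines `X / H = T` -/
def InMean : Prop := ∀ a b : ℝ, 1 < a → a ≤ b →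
  Tendsto (fun T : ℝ => (Real.log T)⁻¹ *
    ∫ X in (T ^ a)..(T ^ b), |V X (X / T) / (X / T * Real.log T) - 1| / X) atTop (𝓝 0)

/-- the nontrivial zeros of `ζ` with ordinate in `(0, T]` -/
def zeros (T : ℝ) : Set ℂ :=
  {s : ℂ | 0 < s.re ∧ s.re < 1 ∧ 0 < s.im ∧ s.im ≤ T ∧ riemannZeta s = 0}

/-- the multiplicity of `s` as a zero of `ζ` -/
noncomputable def mult (s : ℂ) : ℕ := analyticOrderNatAt riemannZeta s

/-- the number of ordered pairs of ordinates in `(0, T]` (with multiplicity, the diagonal pairs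
included) with `2πα / log T ≤ γ - γ' ≤ 2πβ / log T` -/
noncomputable def N (T α β : ℝ) : ℕ :=
  ∑ᶠ s ∈ zeros T, ∑ᶠ s' ∈ {s' : ℂ | s' ∈ zeros T ∧
    2 * Real.pi * α / Real.log T ≤ s.im - s'.im ∧ s.im - s'.im ≤ 2 * Real.pi * β / Real.log T},
      mult s * mult s'

/-- the constant of the pair correlation conjecture -/
noncomputable def P (α β : ℝ) : ℝ :=
  (∫ u in α..β, (1 - (Real.sin (Real.pi * u) / (Real.pi * u)) ^ 2)) +
    if α ≤ 0 ∧ 0 ≤ β then 1 else 0

/-- the pair correlation conjecture -/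
def PairCorrelation : Prop := ∀ α β : ℝ, α < β →
  Asymptotics.IsEquivalent atTop (fun T => (N T α β : ℝ))
    (fun T => P α β * (T / (2 * Real.pi) * Real.log T))

/-- **The variance of primes in short intervals is not too small at all scales; and if it is nowhere
too large, then it is right at almost all scales, and RH and pair correlation hold.** -/
theorem result :
    (∀ δ : ℝ, 0 < δ → ∃ ε : ℝ, 0 < ε ∧ ∃ᶠ X : ℝ in atTop, ∃ H : ℝ, X ^ ε ≤ H ∧
      H ≤ X ^ (1 - ε) ∧ (1 - δ) * (H * Real.log (X / H)) < V X H) ∧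
    (Upper → ShortBound → RiemannHypothesis ∧ PairCorrelation ∧ InMean) := by
  refine ⟨fun δ hδ => ?_, fun h1 h2 => ?_⟩
  · by_contra hcon
    push Not at hcon
    exact Pool.Agent.H7.PS.no_small hδ fun ε hε => hcon ε hε
  · have h : Pool.Agent.H7.PS.HypV := ⟨h1, h2⟩
    refine ⟨h.RH, ?_, fun a b ha hab => Pool.Agent.H7.PS.mean_tendsto h ha hab⟩
    have hM : PairCorrelation ↔ ∀ α β, α < β →
        Tendsto (fun T => Pool.Agent.Y744.Nr T α β) atTop (𝓝 (Pool.Agent.Y744.pr α β)) :=
      Pool.Agent.Y744.G.Mont_iff le_rfl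
    rw [hM]
    intro α β hαβ
    exact Pool.Agent.Y744.Nr_all le_rfl (Pool.Agent.H7.PS.Aa_limit h.RH h.toU) hαβ

end Pool.Agent.Results.MP_2a816b_nt.UpperHalf
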